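import Pool.Agent.Helper37.LT.Main

/-!
# MP_8bf717_co, the regular pentagon is a local maximum

The definitions (`side`, `IsHexagon`, `HasEqualPair`, `IsPHexagon`, `IsBody`, `hstar`) are in
`Pool/Agent/Helper37/PH/Defs.lean`, `regV` and `regPent` in `Pool/Agent/Helper37/LT/RegDef.lean`.
-/

set_option autoImplicit false

open MeasureTheory Set

namespace Pool.Agent.Results.MP_8bf717_co.LocalMaximum

open Pool.Agent.Helper37.PH Pool.Agent.Helper37.LT

/-- For every affine image `Q` of the regular pentagon `h*(Q) = H₀ |Q|` with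
`H₀ = (5 + 3 √5) / 10 = 1.1708...`, and `h*(K) ≤ H₀ |K|` for every convex body `K` that
contains `Q` and has area at most `(1 + 2 · 10⁻⁹) |Q|`. -/
theorem result (A : (ℝ × ℝ) ≃ᵃ[ℝ] (ℝ × ℝ)) :
    hstar (A '' regPent) =
      ENNReal.ofReal ((5 + 3 * Real.sqrt 5) / 10) * volume (A '' regPent) ∧
    ∀ K : Set (ℝ × ℝ), IsBody K → A '' regPent ⊆ K →
      volume K ≤ ENNReal.ofReal (1 + 2 / 1000000000) * volume (A '' regPent) →
      hstar K ≤ ENNReal.ofReal ((5 + 3 * Real.sqrt 5) / 10) * volume K :=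
  local_max A

end Pool.Agent.Results.MP_8bf717_co.LocalMaximum
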