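import Pool.Agent.Helper88.PH.Final

/-!
# MP_8bf717_co, lower bound for `H`

The definitions (`side`, `IsHexagon`, `HasEqualPair`, `IsPHexagon`, `IsBody`, `hstar`, `H`) are in
`Pool/Agent/Helper37/PH/Defs.lean`. The extremal body is the affine-regular pentagon.
-/

set_option autoImplicit false

open MeasureTheory Set

namespace Pool.Agent.Results.MP_8bf717_co.LowerBound

open Pool.Agent.Helper37.PH

/-- `H ≥ (5 + 3 √5) / 10 = 1.1708...`, where `H` is the supremum over the plane convex bodies `K`
of area `1` of the infimum of the areas of the p-hexagons (convex or not) containing `K`. -/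
theorem result : ENNReal.ofReal ((5 + 3 * Real.sqrt 5) / 10) ≤ H :=
  Pool.Agent.Helper88.PH.H_ge

end Pool.Agent.Results.MP_8bf717_co.LowerBound
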