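import Pool.Agent.Helper8.PH5.Lower

/-!
# MP_8bf717_co, the exact value for convex polygons with at most five vertices

The definitions (`side`, `IsHexagon`, `HasEqualPair`, `IsPHexagon`, `IsBody`, `hstar`) are in
`Pool/Agent/Helper37/PH/Defs.lean`.
-/

set_option autoImplicit false

open MeasureTheory Set

namespace Pool.Agent.Results.MP_8bf717_co.Pentagons

open Pool.Agent.Helper37.PH

/-- The supremum of `h*(K)` over the convex polygons `K` of area `1` with at most five vertices
is `(5 + 3 √5) / 10 = 1.1708...`. -/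
theorem result : ⨆ (K : Set (ℝ × ℝ)) (_ : IsBody K ∧ volume K = 1 ∧
      ∃ s : Finset (ℝ × ℝ), s.card ≤ 5 ∧ K = convexHull ℝ (s : Set (ℝ × ℝ))), hstar K =
    ENNReal.ofReal ((5 + 3 * Real.sqrt 5) / 10) :=
  Pool.Agent.Helper8.PH5.exact5

end Pool.Agent.Results.MP_8bf717_co.Pentagons
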