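import Pool.Agent.Helper27.PHV.Main

/-!
# MP_8bf717_co, upper bound for `H`

The definitions (`side`, `IsHexagon`, `HasEqualPair`, `IsPHexagon`, `IsBody`, `hstar`, `H`) are in
`Pool/Agent/Helper37/PH/Defs.lean`.
-/

set_option autoImplicit false

open MeasureTheory Set

namespace Pool.Agent.Results.MP_8bf717_co.UpperBound

open Pool.Agent.Helper37.PH

/-- `H ≤ 6/5`: every plane convex body of area `1` lies in p-hexagons of area arbitrarily close
to a number `≤ 6/5`. -/
theorem result : H ≤ ENNReal.ofReal (6 / 5) :=
  Pool.Agent.Helper27.PHV.H_le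

end Pool.Agent.Results.MP_8bf717_co.UpperBound
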